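import Mathlib

namespace Pool.Agent.Results.MP_8926dc_co.Counter

/-- `f j s t = C(s, j) + C(t, j - 1)`. -/
def f (j s t : ℕ) : ℕ := Nat.choose s j + Nat.choose t (j - 1)

/-- The number of `j`-element vertex sets spanning a clique. -/
noncomputable def k {n : ℕ} (j : ℕ) (G : SimpleGraph (Fin n)) : ℕ := (G.cliqueSet j).ncard

/-- A clique on `0,1,2,3` joined to the three pairwise non-adjacent vertices `4,5,6`. -/
def W : SimpleGraph (Fin 7) where
  Adj a b := a ≠ b ∧ (a.val < 4 ∨ b.val < 4)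
  symm := ⟨fun _ _ h => ⟨h.1.symm, h.2.symm⟩⟩
  loopless := ⟨fun _ h => h.1 rfl⟩

instance : DecidableRel W.Adj := fun a b =>
  inferInstanceAs (Decidable (a ≠ b ∧ (a.val < 4 ∨ b.val < 4)))

theorem k4 : k 4 W = 13 := by
  unfold k
  rw [← SimpleGraph.coe_cliqueFinset, Set.ncard_coe_finset]
  decide +kernel

theorem k5 : k 5 W = 3 := by
  unfold k
  rw [← SimpleGraph.coe_cliqueFinset, Set.ncard_coe_finset]
  decide +kernel

theorem result : ∃ (p r s t n : ℕ) (G : SimpleGraph (Fin n)),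
    3 ≤ p ∧ p < r ∧ r ≤ s ∧ p - 2 ≤ t ∧ t < s ∧
    k p G + 1 ≤ f p s (t + 1) ∧ f r s t < k r G := by
  refine ⟨4, 5, 5, 4, 7, W, by norm_num, by norm_num, by norm_num, by norm_num, by norm_num, ?_, ?_⟩
  · rw [k4]; decide
  · rw [k5]; decide

end Pool.Agent.Results.MP_8926dc_co.Counter
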